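import Mathlib

namespace Pool.Agent.Lib.MP_a2b538_an

open Finset

theorem min_le_tel (u v : ℝ) (hu : 0 < u) (hv : 2 * u ≤ v) :
    min u u⁻¹ ≤ 6 * (v / (1 + v) - u / (1 + u)) := by
  have hv0 : 0 < v := by linarith
  have h1 : 2 * u / (1 + 2 * u) ≤ v / (1 + v) := by
    rw [div_le_div_iff₀ (by positivity) (by positivity)]; nlinarith
  have h2 : 2 * u / (1 + 2 * u) - u / (1 + u) = u / ((1 + u) * (1 + 2 * u)) := by
    field_simp; ring
  have h3 : min u u⁻¹ ≤ 6 * (u / ((1 + u) * (1 + 2 * u))) := by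
    rcases le_total u 1 with h | h
    · refine (min_le_left _ _).trans ?_
      rw [← mul_div_assoc, le_div_iff₀ (by positivity)]
      have : (1 + u) * (1 + 2 * u) ≤ 6 := by nlinarith
      nlinarith
    · refine (min_le_right _ _).trans ?_
      rw [← mul_div_assoc, le_div_iff₀ (by positivity), inv_mul_le_iff₀ hu]
      nlinarith
  linarith

theorem sum_min_le (u : ℕ → ℝ) (hu : ∀ k, 0 < u k) (h2 : ∀ k, 2 * u k ≤ u (k + 1)) (m : ℕ) :
    ∑ k ∈ range m, min (u k) (u k)⁻¹ ≤ 6 := by
  have h : ∑ k ∈ range m, min (u k) (u k)⁻¹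
      ≤ ∑ k ∈ range m, (6 * (u (k + 1) / (1 + u (k + 1))) - 6 * (u k / (1 + u k))) :=
    sum_le_sum fun k _ => by have := min_le_tel _ _ (hu k) (h2 k); linarith
  rw [Finset.sum_range_sub (fun k => 6 * (u k / (1 + u k)))] at h
  have a1 : u m / (1 + u m) ≤ 1 := by
    rw [div_le_one (by have := hu m; positivity)]; linarith
  have a2 : 0 ≤ u 0 / (1 + u 0) := by have := hu 0; positivity
  linarith

theorem half_time (σ : ℕ ≃ ℕ) (V : Finset ℕ) (h : ℕ) (hV : V.card = 2 * h) :
    ∃ N, (V.filter (fun j => σ.symm j < N)).card = h := by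
  classical
  have hex : ∃ N, h ≤ (V.filter (fun j => σ.symm j < N)).card := by
    refine ⟨V.sup σ.symm + 1, ?_⟩
    rw [filter_true_of_mem]
    · omega
    · intro j hj; exact Nat.lt_succ_of_le (le_sup hj)
  refine ⟨Nat.find hex, le_antisymm ?_ (Nat.find_spec hex)⟩
  rcases hN : Nat.find hex with _ | N
  · simp
  · have h1 : ¬ h ≤ (V.filter (fun j => σ.symm j < N)).card := Nat.find_min hex (by omega)
    have h2 : V.filter (fun j => σ.symm j < N + 1) ⊆
        insert (σ N) (V.filter (fun j => σ.symm j < N)) := by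
      intro j hj
      rw [mem_filter] at hj
      rw [mem_insert, mem_filter]
      by_cases e : σ.symm j = N
      · left; rw [← e]; simp
      · right; exact ⟨hj.1, by omega⟩
    have h3 := (card_le_card h2).trans (card_insert_le _ _)
    omega

theorem grid_balanced (s c : ℕ) (hs : 0 < s) (A : Finset (Fin s × Fin s × Fin c))
    (hA : 2 * A.card = s * s * c) :
    (∃ i, s * c ≤ 6 * (A.filter (fun v => v.1 = i)).card ∧
      s * c ≤ 6 * (Aᶜ.filter (fun v => v.1 = i)).card) ∨
    (∃ j, s * c ≤ 6 * (A.filter (fun v => v.2.1 = j)).card ∧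
      s * c ≤ 6 * (Aᶜ.filter (fun v => v.2.1 = j)).card) := by
  classical
  by_contra hcon
  push Not at hcon
  obtain ⟨hr, hc⟩ := hcon
  rcases Nat.eq_zero_or_pos c with rfl | hcpos
  · have := hr ⟨0, hs⟩ (by simp)
    simp at this
  -- full rows
  set R : Finset (Fin s) := univ.filter (fun i => s * c ≤ 6 * (A.filter (fun v => v.1 = i)).card)
    with hR
  set D : Finset (Fin s × Fin s × Fin c) := univ.filter (fun v => ¬ (v ∈ A ↔ v.1 ∈ R)) with hD
  have hDrow : ∀ i, 6 * (D.filter (fun v => v.1 = i)).card < s * c := by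
    intro i
    by_cases hi : i ∈ R
    · have h1 := hr i (by simpa [hR] using hi)
      refine lt_of_le_of_lt ?_ h1
      apply Nat.mul_le_mul_left
      apply card_le_card
      intro v hv
      simp only [hD, mem_filter, mem_univ, true_and, mem_compl] at hv ⊢
      refine ⟨fun hvA => hv.1 ?_, hv.2⟩
      rw [hv.2]; exact ⟨fun _ => hi, fun _ => hvA⟩
    · have h1 : 6 * (A.filter (fun v => v.1 = i)).card < s * c := by simpa [hR] using hi
      refine lt_of_le_of_lt ?_ h1
      apply Nat.mul_le_mul_left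
      apply card_le_card
      intro v hv
      simp only [hD, mem_filter, mem_univ, true_and] at hv ⊢
      refine ⟨?_, hv.2⟩
      by_contra hvA
      apply hv.1
      rw [hv.2]; exact ⟨fun h => absurd h hvA, fun h => absurd h hi⟩
  have : Nonempty (Fin s) := ⟨⟨0, hs⟩⟩
  have hDcard : 6 * D.card < s * (s * c) := by
    rw [card_eq_sum_card_fiberwise (f := fun v : Fin s × Fin s × Fin c => v.1) (t := univ)
      (fun _ _ => mem_univ _), mul_sum]
    calc _ < ∑ _i : Fin s, s * c := sum_lt_sum_of_nonempty univ_nonempty (fun i _ => hDrow i)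
      _ = s * (s * c) := by simp
  obtain ⟨j, -, hj⟩ : ∃ j ∈ (univ : Finset (Fin s)),
      6 * (D.filter (fun v => v.2.1 = j)).card < s * c := by
    apply exists_lt_of_sum_lt
    rw [← mul_sum, ← card_eq_sum_card_fiberwise (f := fun v : Fin s × Fin s × Fin c => v.2.1)
      (t := univ) (fun _ _ => mem_univ _)]
    simpa using hDcard
  -- counting
  have hRc : R.card + Rᶜ.card = s := by rw [card_add_card_compl]; simp
  have hAc : A.card + Aᶜ.card = s * (s * c) := by rw [card_add_card_compl]; simp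
  have e1 : A ⊆ (R ×ˢ (univ : Finset (Fin s × Fin c))) ∪ D := by
    intro v hv
    simp only [hD, mem_union, mem_product, mem_univ, and_true, mem_filter, true_and]
    by_cases h : v.1 ∈ R
    · exact Or.inl h
    · exact Or.inr (fun hh => h (hh.mp hv))
  have e2 : Aᶜ ⊆ (Rᶜ ×ˢ (univ : Finset (Fin s × Fin c))) ∪ D := by
    intro v hv
    simp only [hD, mem_union, mem_product, mem_univ, and_true, mem_filter, true_and,
      mem_compl] at hv ⊢
    by_cases h : v.1 ∈ R
    · exact Or.inr (fun hh => hv (hh.mpr h))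
    · exact Or.inl h
  have f1 := (card_le_card e1).trans (card_union_le _ _)
  have f2 := (card_le_card e2).trans (card_union_le _ _)
  simp only [card_product, card_univ, Fintype.card_prod, Fintype.card_fin] at f1 f2
  have e3 : R ×ˢ (({j} : Finset (Fin s)) ×ˢ (univ : Finset (Fin c))) ⊆
      A.filter (fun v => v.2.1 = j) ∪ D.filter (fun v => v.2.1 = j) := by
    intro v hv
    simp only [hD, mem_union, mem_product, mem_univ, and_true, mem_filter, true_and,
      mem_singleton] at hv ⊢
    by_cases h : v ∈ A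
    · exact Or.inl ⟨h, hv.2⟩
    · exact Or.inr ⟨fun hh => h (hh.mpr hv.1), hv.2⟩
  have e4 : Rᶜ ×ˢ (({j} : Finset (Fin s)) ×ˢ (univ : Finset (Fin c))) ⊆
      Aᶜ.filter (fun v => v.2.1 = j) ∪ D.filter (fun v => v.2.1 = j) := by
    intro v hv
    simp only [hD, mem_union, mem_product, mem_univ, and_true, mem_filter, true_and,
      mem_singleton, mem_compl] at hv ⊢
    by_cases h : v ∈ A
    · exact Or.inr ⟨fun hh => hv.1 (hh.mp h), hv.2⟩
    · exact Or.inl ⟨h, hv.2⟩
  have f3 := (card_le_card e3).trans (card_union_le _ _)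
  have f4 := (card_le_card e4).trans (card_union_le _ _)
  simp only [card_product, card_univ, Fintype.card_fin, card_singleton, one_mul] at f3 f4
  have hsc : 0 < s * c := Nat.mul_pos hs hcpos
  have g1 : s < 3 * R.card := by
    by_contra hh
    push Not at hh
    have : 3 * (R.card * (s * c)) ≤ s * (s * c) := by
      rw [← mul_assoc]; exact Nat.mul_le_mul_right _ hh
    have h5 : s * s * c = s * (s * c) := by ring
    omega
  have g2 : s < 3 * Rᶜ.card := by
    by_contra hh
    push Not at hh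
    have : 3 * (Rᶜ.card * (s * c)) ≤ s * (s * c) := by
      rw [← mul_assoc]; exact Nat.mul_le_mul_right _ hh
    have h5 : s * s * c = s * (s * c) := by ring
    omega
  have g3 : s * c ≤ 3 * (R.card * c) := by
    rw [← mul_assoc]; exact Nat.mul_le_mul_right _ g1.le
  have g4 : s * c ≤ 3 * (Rᶜ.card * c) := by
    rw [← mul_assoc]; exact Nat.mul_le_mul_right _ g2.le
  have := hc j (by omega)
  omega

theorem exists_level (V : Finset ℕ) (s c : ℕ) (hs : 0 < s) (hV : V.card = s * s * c) :
    ∃ L : Set (Finset ℕ), (∀ S ∈ L, S ⊆ V ∧ S.card = s * c) ∧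
      (∀ S ∈ L, ∀ S' ∈ L, S ≠ S' → (S ∩ S').card ≤ c) ∧
      (∀ A : Finset ℕ, 2 * (V ∩ A).card = V.card →
        ∃ S ∈ L, s * c ≤ 6 * (S ∩ A).card ∧ s * c ≤ 6 * (S \ A).card) := by
  classical
  have hc : Fintype.card (Fin s × Fin s × Fin c) = Fintype.card V := by
    simp [hV, mul_assoc]
  let φ : (Fin s × Fin s × Fin c) ≃ V := Fintype.equivOfCardEq hc
  let ψ : (Fin s × Fin s × Fin c) ↪ ℕ := φ.toEmbedding.trans (Function.Embedding.subtype _)
  have hψ : ∀ v, ψ v ∈ V := fun v => (φ v).2
  let row : Fin s → Finset (Fin s × Fin s × Fin c) := fun i => univ.filter (fun v => v.1 = i)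
  let col : Fin s → Finset (Fin s × Fin s × Fin c) := fun j => univ.filter (fun v => v.2.1 = j)
  have hrow : ∀ i, (row i).card = s * c := by
    intro i
    have : row i = ({i} : Finset (Fin s)) ×ˢ (univ : Finset (Fin s × Fin c)) := by
      ext v; simp only [row, mem_filter, mem_univ, true_and, mem_product, mem_singleton, and_true]
    rw [this]; simp
  have hcol : ∀ j, (col j).card = s * c := by
    intro j
    have : col j = (univ : Finset (Fin s)) ×ˢ (({j} : Finset (Fin s)) ×ˢ (univ : Finset (Fin c))) := by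
      ext v; simp only [col, mem_filter, mem_univ, true_and, mem_product, mem_singleton, and_true]
    rw [this]; simp
  have hrc : ∀ i j, (row i ∩ col j).card = c := by
    intro i j
    have : row i ∩ col j =
        ({i} : Finset (Fin s)) ×ˢ (({j} : Finset (Fin s)) ×ˢ (univ : Finset (Fin c))) := by
      ext v
      simp only [row, col, mem_inter, mem_filter, mem_univ, true_and, mem_product, mem_singleton,
        and_true]
    rw [this]; simp
  refine ⟨{S | (∃ i, S = (row i).map ψ) ∨ (∃ j, S = (col j).map ψ)}, ?_, ?_, ?_⟩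
  · rintro S (⟨i, rfl⟩ | ⟨j, rfl⟩)
    · exact ⟨fun x hx => by obtain ⟨v, -, rfl⟩ := mem_map.mp hx; exact hψ v, by rw [card_map, hrow]⟩
    · exact ⟨fun x hx => by obtain ⟨v, -, rfl⟩ := mem_map.mp hx; exact hψ v, by rw [card_map, hcol]⟩
  · rintro S (⟨i, rfl⟩ | ⟨j, rfl⟩) S' (⟨i', rfl⟩ | ⟨j', rfl⟩) hne <;>
      rw [← map_inter, card_map]
    · have : row i ∩ row i' = ∅ := by
        ext v
        simp only [row, mem_inter, mem_filter, mem_univ, true_and, notMem_empty, iff_false]
        rintro ⟨h1, h2⟩; apply hne; rw [← h1, ← h2]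
      rw [this]; simp
    · exact (hrc _ _).le
    · rw [inter_comm]; exact (hrc _ _).le
    · have : col j ∩ col j' = ∅ := by
        ext v
        simp only [col, mem_inter, mem_filter, mem_univ, true_and, notMem_empty, iff_false]
        rintro ⟨h1, h2⟩; apply hne; rw [← h1, ← h2]
      rw [this]; simp
  · intro A hA
    let A' : Finset (Fin s × Fin s × Fin c) := univ.filter (fun v => ψ v ∈ A)
    have hA' : A'.map ψ = V ∩ A := by
      ext x
      simp only [A', mem_map, mem_filter, mem_univ, true_and, mem_inter]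
      constructor
      · rintro ⟨v, hv, rfl⟩; exact ⟨hψ v, hv⟩
      · rintro ⟨hx, hxA⟩
        have : ψ (φ.symm ⟨x, hx⟩) = x := by simp [ψ]
        exact ⟨φ.symm ⟨x, hx⟩, by rw [this]; exact hxA, this⟩
    have hcard : 2 * A'.card = s * s * c := by rw [← hV, ← hA, ← hA', card_map]
    have k1 : ∀ (p : Fin s × Fin s × Fin c → Prop) [DecidablePred p],
        (univ.filter p).map ψ ∩ A = (A'.filter p).map ψ := by
      intro p _
      ext x
      simp only [A', mem_map, mem_filter, mem_univ, true_and, mem_inter]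
      constructor
      · rintro ⟨⟨v, hv, rfl⟩, h⟩; exact ⟨v, ⟨h, hv⟩, rfl⟩
      · rintro ⟨v, ⟨h, hv⟩, rfl⟩; exact ⟨⟨v, hv, rfl⟩, h⟩
    have k2 : ∀ (p : Fin s × Fin s × Fin c → Prop) [DecidablePred p],
        (univ.filter p).map ψ \ A = (A'ᶜ.filter p).map ψ := by
      intro p _
      ext x
      simp only [A', mem_map, mem_filter, mem_univ, true_and, mem_sdiff, mem_compl]
      constructor
      · rintro ⟨⟨v, hv, rfl⟩, h⟩; exact ⟨v, ⟨h, hv⟩, rfl⟩
      · rintro ⟨v, ⟨h, hv⟩, rfl⟩; exact ⟨⟨v, hv, rfl⟩, h⟩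
    rcases grid_balanced s c hs A' hcard with ⟨i, h1, h2⟩ | ⟨j, h1, h2⟩
    · refine ⟨(row i).map ψ, Or.inl ⟨i, rfl⟩, ?_, ?_⟩
      · rw [k1, card_map]; exact h1
      · rw [k2, card_map]; exact h2
    · refine ⟨(col j).map ψ, Or.inr ⟨j, rfl⟩, ?_, ?_⟩
      · rw [k1, card_map]; exact h1
      · rw [k2, card_map]; exact h2

end Pool.Agent.Lib.MP_a2b538_an
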