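import Mathlib

namespace Pool.Agent.Lib.MP_a2b538_an

open BoundedContinuousFunction

variable {𝕜 : Type} [RCLike 𝕜]

/-- discrete copy of a set of functionals -/
def Disc (Φ : Set ((ℕ → 𝕜) →L[𝕜] 𝕜)) : Type := {φ : (ℕ → 𝕜) →L[𝕜] 𝕜 // φ ∈ Φ}

instance (Φ : Set ((ℕ → 𝕜) →L[𝕜] 𝕜)) : TopologicalSpace (Disc Φ) := ⊥
instance (Φ : Set ((ℕ → 𝕜) →L[𝕜] 𝕜)) : DiscreteTopology (Disc Φ) := ⟨rfl⟩

theorem exists_space (Φ : Set ((ℕ → 𝕜) →L[𝕜] 𝕜)) (B : ℝ)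
    (hproj : ∀ j, (ContinuousLinearMap.proj j : (ℕ → 𝕜) →L[𝕜] 𝕜) ∈ Φ)
    (hB : ∀ φ ∈ Φ, ∀ j, ‖φ (Pi.single j 1)‖ ≤ B) :
    ∃ (X : Type) (_ : NormedAddCommGroup X) (_ : NormedSpace 𝕜 X) (_ : CompleteSpace X)
      (e : ℕ → X) (f : ℕ → X →L[𝕜] 𝕜),
      Dense (Submodule.span 𝕜 (Set.range e) : Set X) ∧
      (∀ n k, f n (e k) = if n = k then 1 else 0) ∧
      (∀ y : X, ∀ φ ∈ Φ, ‖φ (fun j => f j y)‖ ≤ ‖y‖) ∧
      (∀ (y : X) (C : ℝ), 0 ≤ C → (∀ φ ∈ Φ, ‖φ (fun j => f j y)‖ ≤ C) → ‖y‖ ≤ C) := by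
  let e0 : ℕ → (Disc Φ →ᵇ 𝕜) := fun j =>
    ofNormedAddCommGroupDiscrete (fun φ : Disc Φ => φ.1 (Pi.single j 1)) B
      (fun φ => hB φ.1 φ.2 j)
  let W : Submodule 𝕜 (Disc Φ →ᵇ 𝕜) := (Submodule.span 𝕜 (Set.range e0)).topologicalClosure
  have hW : IsClosed (W : Set (Disc Φ →ᵇ 𝕜)) := Submodule.isClosed_topologicalClosure _
  have : CompleteSpace W := hW.completeSpace_coe
  have hmem : ∀ j, e0 j ∈ W := fun j =>
    Submodule.le_topologicalClosure _ (Submodule.subset_span ⟨j, rfl⟩)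
  let e : ℕ → W := fun j => ⟨e0 j, hmem j⟩
  let pt : ℕ → Disc Φ := fun j => ⟨ContinuousLinearMap.proj j, hproj j⟩
  let f : ℕ → W →L[𝕜] 𝕜 := fun j => (evalCLM 𝕜 (pt j)).comp W.subtypeL
  have hfe : ∀ n k, f n (e k) = if n = k then 1 else 0 := by
    intro n k
    change (Pi.single k (1 : 𝕜) : ℕ → 𝕜) n = _
    rw [Pi.single_apply]
  have hdense : Dense (Submodule.span 𝕜 (Set.range e) : Set W) := by
    rw [Subtype.dense_iff]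
    have : ((↑) : W → (Disc Φ →ᵇ 𝕜)) '' (Submodule.span 𝕜 (Set.range e) : Set W)
        = (Submodule.span 𝕜 (Set.range e0) : Set (Disc Φ →ᵇ 𝕜)) := by
      have h1 : Submodule.map W.subtype (Submodule.span 𝕜 (Set.range e))
          = Submodule.span 𝕜 (Set.range e0) := by
        rw [Submodule.map_span, ← Set.range_comp]; rfl
      rw [← h1]; rfl
    intro x hx
    have hx' : x ∈ closure (Submodule.span 𝕜 (Set.range e0) : Set (Disc Φ →ᵇ 𝕜)) := hx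
    rw [← this] at hx'
    exact hx'
  have hrep : ∀ (y : W) (φ : Disc Φ), (y : Disc Φ →ᵇ 𝕜) φ = φ.1 (fun j => f j y) := by
    intro y φ
    let g1 : W →L[𝕜] 𝕜 := (evalCLM 𝕜 φ).comp W.subtypeL
    let g2 : W →L[𝕜] 𝕜 := φ.1.comp (ContinuousLinearMap.pi f)
    have : g1 = g2 := by
      apply ContinuousLinearMap.ext_on hdense
      rintro _ ⟨k, rfl⟩
      change φ.1 (Pi.single k 1) = φ.1 (fun j => f j (e k))
      rfl
    exact congrArg (fun g : W →L[𝕜] 𝕜 => g y) this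
  refine ⟨W, inferInstance, inferInstance, inferInstance, e, f, hdense, hfe, ?_, ?_⟩
  · intro y φ hφ
    rw [← hrep y ⟨φ, hφ⟩]
    exact norm_coe_le_norm (y : Disc Φ →ᵇ 𝕜) _
  · intro y C hC h
    change ‖(y : Disc Φ →ᵇ 𝕜)‖ ≤ C
    rw [norm_le hC]
    intro φ
    rw [hrep y φ]
    exact h φ.1 φ.2

end Pool.Agent.Lib.MP_a2b538_an
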