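import Mathlib
import Pool.Agent.Lib.MP_a2b538_an.Comb

namespace Pool.Agent.Lib.MP_a2b538_an

open Finset

def bb (m : ℕ) : ℕ := 2 * m ^ 2 + 2

def blk (m : ℕ) : Finset ℕ :=
  (range (bb m ^ (4 * m))).map ⟨Nat.pair m, fun _ _ h => (Nat.pair_eq_pair.mp h).2⟩

noncomputable def rr (m k : ℕ) : ℝ := (bb m : ℝ) ^ (m + k)

theorem two_le_bb (m : ℕ) : (2 : ℝ) ≤ bb m := by
  unfold bb; push_cast; nlinarith [sq_nonneg (m : ℝ)]

theorem bb_pos (m : ℕ) : (0 : ℝ) < bb m := by have := two_le_bb m; linarith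

theorem sq_le_bb (m : ℕ) : (m : ℝ) ^ 2 ≤ bb m := by
  unfold bb; push_cast; nlinarith [sq_nonneg (m : ℝ)]

theorem rr_pos (m k : ℕ) : 0 < rr m k := pow_pos (bb_pos m) _

theorem rr_succ (m k : ℕ) : 2 * rr m k ≤ rr m (k + 1) := by
  unfold rr
  rw [← add_assoc, pow_succ, mul_comm]
  exact mul_le_mul_of_nonneg_left (two_le_bb m) (pow_pos (bb_pos m) _).le

theorem rr_lt {m k l : ℕ} (h : k < l) : rr m k * bb m ≤ rr m l := by
  unfold rr
  rw [← pow_succ]
  exact pow_le_pow_right₀ (by have := two_le_bb m; linarith) (by omega)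

theorem blk_card (m : ℕ) : (blk m).card = bb m ^ (4 * m) := by simp [blk]

theorem blk_disj {m m' j : ℕ} (h : j ∈ blk m) (h' : j ∈ blk m') : m = m' := by
  simp only [blk, mem_map, Function.Embedding.coeFn_mk] at h h'
  obtain ⟨a, -, ha⟩ := h
  obtain ⟨b, -, hb⟩ := h'
  exact (Nat.pair_eq_pair.mp (ha.trans hb.symm)).1

structure Data (L : ℕ → ℕ → Set (Finset ℕ)) : Prop where
  sub : ∀ m k, k < m → ∀ S ∈ L m k, S ⊆ blk m
  card : ∀ m k, k < m → ∀ S ∈ L m k, (S.card : ℝ) = rr m k ^ 2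
  inter : ∀ m k, k < m → ∀ S ∈ L m k, ∀ S' ∈ L m k, S ≠ S' →
    ((S ∩ S').card : ℝ) * bb m ≤ rr m k ^ 2
  bal : ∀ m k, k < m → ∀ A : Finset ℕ, 2 * (blk m ∩ A).card = (blk m).card →
    ∃ S ∈ L m k, rr m k ^ 2 ≤ 6 * ((S ∩ A).card : ℝ) ∧ rr m k ^ 2 ≤ 6 * ((S \ A).card : ℝ)

theorem exists_data : ∃ L, Data L := by
  have key : ∀ m k : ℕ, ∃ L : Set (Finset ℕ), k < m →
      (∀ S ∈ L, S ⊆ blk m ∧ S.card = bb m ^ (2 * (m - k)) * bb m ^ (4 * k)) ∧
      (∀ S ∈ L, ∀ S' ∈ L, S ≠ S' → (S ∩ S').card ≤ bb m ^ (4 * k)) ∧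
      (∀ A : Finset ℕ, 2 * (blk m ∩ A).card = (blk m).card →
        ∃ S ∈ L, bb m ^ (2 * (m - k)) * bb m ^ (4 * k) ≤ 6 * (S ∩ A).card ∧
          bb m ^ (2 * (m - k)) * bb m ^ (4 * k) ≤ 6 * (S \ A).card) := by
    intro m k
    by_cases hk : k < m
    · obtain ⟨L, hL⟩ := exists_level (blk m) (bb m ^ (2 * (m - k))) (bb m ^ (4 * k))
        (pow_pos (by unfold bb; omega) _)
        (by rw [blk_card, ← pow_add, ← pow_add]; congr 1; omega)
      exact ⟨L, fun _ => hL⟩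
    · exact ⟨∅, fun h => absurd h hk⟩
  choose L hL using key
  have hr : ∀ m k, k < m → ((bb m ^ (2 * (m - k)) * bb m ^ (4 * k) : ℕ) : ℝ) = rr m k ^ 2 := by
    intro m k hk
    unfold rr
    rw [← pow_add, ← pow_mul]
    push_cast
    congr 1; omega
  refine ⟨L, ⟨fun m k hk S hS => ((hL m k hk).1 S hS).1, fun m k hk S hS => ?_,
    fun m k hk S hS S' hS' hne => ?_, fun m k hk A hA => ?_⟩⟩
  · rw [((hL m k hk).1 S hS).2, hr m k hk]
  · have h1 : ((S ∩ S').card : ℝ) ≤ (bb m : ℝ) ^ (4 * k) := by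
      exact_mod_cast (hL m k hk).2.1 S hS S' hS' hne
    calc ((S ∩ S').card : ℝ) * bb m ≤ (bb m : ℝ) ^ (4 * k) * bb m :=
          mul_le_mul_of_nonneg_right h1 (bb_pos m).le
      _ = (bb m : ℝ) ^ (4 * k + 1) := by rw [pow_succ]
      _ ≤ (bb m : ℝ) ^ ((m + k) * 2) :=
          pow_le_pow_right₀ (by have := two_le_bb m; linarith) (by omega)
      _ = rr m k ^ 2 := by unfold rr; rw [pow_mul]
  · obtain ⟨S, hS, h1, h2⟩ := (hL m k hk).2.2 A hA
    refine ⟨S, hS, ?_, ?_⟩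
    · rw [← hr m k hk]; exact_mod_cast h1
    · rw [← hr m k hk]; exact_mod_cast h2

variable {𝕜 : Type} [RCLike 𝕜] {L : ℕ → ℕ → Set (Finset ℕ)}

/-- the norm of the sequence `x` is at most `C` -/
def Bd (L : ℕ → ℕ → Set (Finset ℕ)) (x : ℕ → 𝕜) (C : ℝ) : Prop :=
  (∀ T : Finset ℕ, ∑ j ∈ T, ‖x j‖ ^ 2 ≤ C ^ 2) ∧
    ∀ (m : ℕ) (S : ℕ → Finset ℕ), (∀ k < m, S k ∈ L m k) →
      ∑ k ∈ range m, ‖∑ j ∈ S k, x j‖ / rr m k ≤ C

def Phi (𝕜 : Type) [RCLike 𝕜] (L : ℕ → ℕ → Set (Finset ℕ)) : Set ((ℕ → 𝕜) →L[𝕜] 𝕜) :=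
  {φ | (∃ (T : Finset ℕ) (w : ℕ → 𝕜), ∑ j ∈ T, ‖w j‖ ^ 2 ≤ 1 ∧ ∀ x, φ x = ∑ j ∈ T, w j * x j) ∨
    ∃ (m : ℕ) (S : ℕ → Finset ℕ) (θ : ℕ → 𝕜), (∀ k < m, S k ∈ L m k) ∧
      (∀ k, ‖θ k‖ ≤ (rr m k)⁻¹) ∧ ∀ x, φ x = ∑ k ∈ range m, θ k * ∑ j ∈ S k, x j}

theorem proj_mem_Phi (j : ℕ) : (ContinuousLinearMap.proj j : (ℕ → 𝕜) →L[𝕜] 𝕜) ∈ Phi 𝕜 L :=
  Or.inl ⟨{j}, fun _ => 1, by simp, fun x => by simp⟩

theorem phi_of_bd {x : ℕ → 𝕜} {C : ℝ} (hC : 0 ≤ C) (h : Bd L x C) :
    ∀ φ ∈ Phi 𝕜 L, ‖φ x‖ ≤ C := by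
  rintro φ (⟨T, w, hw, hφ⟩ | ⟨m, S, θ, hS, hθ, hφ⟩)
  · rw [hφ]
    have h1 : ‖∑ j ∈ T, w j * x j‖ ≤ ∑ j ∈ T, ‖w j‖ * ‖x j‖ :=
      (norm_sum_le _ _).trans (le_of_eq (sum_congr rfl fun j _ => norm_mul _ _))
    have h2 := sum_mul_sq_le_sq_mul_sq T (fun j => ‖w j‖) (fun j => ‖x j‖)
    have h3 := h.1 T
    have h4 : (∑ j ∈ T, ‖w j‖ * ‖x j‖) ^ 2 ≤ C ^ 2 := by
      refine h2.trans ?_
      calc _ ≤ 1 * C ^ 2 := mul_le_mul hw h3 (by positivity) zero_le_one
        _ = C ^ 2 := one_mul _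
    exact h1.trans (abs_le_of_sq_le_sq' h4 hC).2
  · rw [hφ]
    refine (norm_sum_le _ _).trans (le_trans (sum_le_sum fun k _ => ?_) (h.2 m S hS))
    rw [norm_mul, div_eq_inv_mul]
    exact mul_le_mul_of_nonneg_right (hθ k) (norm_nonneg _)

theorem bd_of_phi {x : ℕ → 𝕜} {C : ℝ} (hC : 0 ≤ C) (h : ∀ φ ∈ Phi 𝕜 L, ‖φ x‖ ≤ C) :
    Bd L x C := by
  constructor
  · intro T
    set q : ℝ := ∑ j ∈ T, ‖x j‖ ^ 2 with hq
    have hq0 : 0 ≤ q := by positivity
    rcases hq0.eq_or_lt with h0 | hpos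
    · rw [← h0]; positivity
    have hs : 0 < √q := Real.sqrt_pos.mpr hpos
    let w : ℕ → 𝕜 := fun j => ((√q)⁻¹ : ℝ) * (starRingEnd 𝕜) (x j)
    have h1 := h (∑ j ∈ T, w j • (ContinuousLinearMap.proj j : (ℕ → 𝕜) →L[𝕜] 𝕜))
      (Or.inl ⟨T, w, ?_, fun y => by simp⟩)
    · have h2 : (∑ j ∈ T, w j • (ContinuousLinearMap.proj j : (ℕ → 𝕜) →L[𝕜] 𝕜)) x
          = ((√q : ℝ) : 𝕜) := by
        simp only [_root_.sum_apply, _root_.smul_apply,
          ContinuousLinearMap.proj_apply, smul_eq_mul, w, mul_assoc, RCLike.conj_mul]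
        rw [← mul_sum]
        have : ∑ j ∈ T, ((‖x j‖ : ℝ) : 𝕜) ^ 2 = ((q : ℝ) : 𝕜) := by rw [hq]; push_cast; rfl
        rw [this, ← RCLike.ofReal_mul]
        congr 1
        rw [inv_mul_eq_iff_eq_mul₀ hs.ne', Real.mul_self_sqrt hq0]
      rw [h2, RCLike.norm_ofReal, abs_of_pos hs] at h1
      calc q = √q ^ 2 := (Real.sq_sqrt hq0).symm
        _ ≤ C ^ 2 := by gcongr
    · have : ∀ j, ‖w j‖ ^ 2 = q⁻¹ * ‖x j‖ ^ 2 := by
        intro j
        simp only [w, norm_mul, RCLike.norm_ofReal, RCLike.norm_conj, mul_pow, sq_abs, inv_pow,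
          Real.sq_sqrt hq0]
      simp only [this]
      rw [← mul_sum, ← hq, inv_mul_cancel₀ hpos.ne']
  · intro m S hS
    choose c hc1 hc2 using fun k => RCLike.exists_norm_eq_mul_self (∑ j ∈ S k, x j)
    let θ : ℕ → 𝕜 := fun k => (((rr m k)⁻¹ : ℝ) : 𝕜) * c k
    have h1 := h (∑ k ∈ range m, θ k •
      ∑ j ∈ S k, (ContinuousLinearMap.proj j : (ℕ → 𝕜) →L[𝕜] 𝕜))
      (Or.inr ⟨m, S, θ, hS, fun k => ?_, fun y => by simp⟩)
    · have h2 : (∑ k ∈ range m, θ k •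
          ∑ j ∈ S k, (ContinuousLinearMap.proj j : (ℕ → 𝕜) →L[𝕜] 𝕜)) x
          = ((∑ k ∈ range m, ‖∑ j ∈ S k, x j‖ / rr m k : ℝ) : 𝕜) := by
        simp only [_root_.sum_apply, _root_.smul_apply,
          ContinuousLinearMap.proj_apply, smul_eq_mul, θ, mul_assoc, ← hc2]
        push_cast
        exact sum_congr rfl fun k _ => by rw [div_eq_inv_mul]
      rw [h2, RCLike.norm_ofReal] at h1
      exact (le_abs_self _).trans h1
    · simp only [θ, norm_mul, hc1, mul_one, RCLike.norm_ofReal]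
      rw [abs_of_pos (inv_pos.mpr (rr_pos m k))]

theorem Bd.mono {x : ℕ → 𝕜} {C C' : ℝ} (hC : 0 ≤ C) (h : Bd L x C) (hCC : C ≤ C') : Bd L x C' :=
  ⟨fun T => (h.1 T).trans (by gcongr), fun m S hS => (h.2 m S hS).trans hCC⟩

theorem bd_flat (hL : Data L) {x : ℕ → 𝕜} {D : Finset ℕ} {t : ℝ} (ht : 0 ≤ t)
    (h1 : ∀ j ∈ D, ‖x j‖ ≤ t) (h0 : ∀ j ∉ D, x j = 0) : Bd L x (6 * t * √(D.card)) := by
  classical
  have hsum : ∀ T : Finset ℕ, ∑ j ∈ T, ‖x j‖ ≤ t * ((T ∩ D).card : ℝ) := by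
    intro T
    rw [← sum_subset (inter_subset_left (s₁ := T) (s₂ := D))
      (fun j hj hj' => by rw [h0 j (fun h => hj' (mem_inter.mpr ⟨hj, h⟩)), norm_zero])]
    calc _ ≤ ∑ _j ∈ T ∩ D, t := sum_le_sum fun j hj => h1 j (mem_inter.mp hj).2
      _ = _ := by rw [sum_const, nsmul_eq_mul, mul_comm]
  have hle : ∀ j, ‖x j‖ ≤ t := fun j => by
    by_cases hj : j ∈ D
    · exact h1 j hj
    · rw [h0 j hj, norm_zero]; exact ht
  constructor
  · intro T
    have a1 : ∑ j ∈ T, ‖x j‖ ^ 2 ≤ t * ∑ j ∈ T, ‖x j‖ := by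
      rw [mul_sum]
      exact sum_le_sum fun j _ => by
        rw [sq]; exact mul_le_mul_of_nonneg_right (hle j) (norm_nonneg _)
    have a2 : ((T ∩ D).card : ℝ) ≤ D.card := by exact_mod_cast card_le_card inter_subset_right
    have a3 := hsum T
    have a4 : (6 * t * √(D.card)) ^ 2 = 36 * (t * (t * D.card)) := by
      rw [mul_pow, Real.sq_sqrt (Nat.cast_nonneg _)]; ring
    have a5 : t * ∑ j ∈ T, ‖x j‖ ≤ t * (t * D.card) :=
      mul_le_mul_of_nonneg_left (a3.trans (mul_le_mul_of_nonneg_left a2 ht)) ht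
    have a6 : 0 ≤ t * (t * D.card) := by positivity
    linarith
  · intro m S hS
    rcases D.eq_empty_or_nonempty with rfl | hD
    · have : ∀ j, x j = 0 := fun j => h0 j (notMem_empty j)
      simp [this]
    have hd : (0 : ℝ) < D.card := by exact_mod_cast hD.card_pos
    have hs : 0 < √(D.card : ℝ) := Real.sqrt_pos.mpr hd
    have hss : √(D.card : ℝ) * √(D.card : ℝ) = D.card := Real.mul_self_sqrt hd.le
    have key := sum_min_le (fun k => rr m k / √(D.card : ℝ)) (fun k => div_pos (rr_pos m k) hs)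
      (fun k => by rw [← mul_div_assoc]; exact div_le_div_of_nonneg_right (rr_succ m k) hs.le) m
    calc _ ≤ ∑ k ∈ range m, t * √(D.card : ℝ) *
          min (rr m k / √(D.card : ℝ)) (rr m k / √(D.card : ℝ))⁻¹ := by
          refine sum_le_sum fun k hk => ?_
          have hr := rr_pos m k
          have b1 := (norm_sum_le (S k) x).trans (hsum (S k))
          have b2 : (((S k) ∩ D).card : ℝ) ≤ rr m k ^ 2 := by
            rw [← hL.card m k (mem_range.mp hk) _ (hS k (mem_range.mp hk))]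
            exact_mod_cast card_le_card inter_subset_left
          have b3 : (((S k) ∩ D).card : ℝ) ≤ D.card := by
            exact_mod_cast card_le_card inter_subset_right
          rw [mul_min_of_nonneg _ _ (by positivity), le_min_iff, div_le_iff₀ hr, div_le_iff₀ hr]
          constructor
          · refine b1.trans ((mul_le_mul_of_nonneg_left b2 ht).trans (le_of_eq ?_))
            field_simp
          · refine b1.trans ((mul_le_mul_of_nonneg_left b3 ht).trans (le_of_eq ?_))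
            rw [inv_div]
            field_simp
            rw [sq, hss]
      _ = t * √(D.card : ℝ) * ∑ k ∈ range m,
          min (rr m k / √(D.card : ℝ)) (rr m k / √(D.card : ℝ))⁻¹ := by rw [mul_sum]
      _ ≤ t * √(D.card : ℝ) * 6 := mul_le_mul_of_nonneg_left key (by positivity)
      _ = _ := by ring

theorem bd_greedy (hL : Data L) {x : ℕ → 𝕜} {C : ℝ} (hC : 0 ≤ C) (h : Bd L x C) (A : Finset ℕ)
    (hA : ∀ n ∈ A, ∀ k ∉ A, ‖x k‖ ≤ ‖x n‖) :
    Bd L (fun j => if j ∈ A then x j else 0) (7 * C) := by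
  classical
  rcases A.eq_empty_or_nonempty with rfl | hne
  · refine ⟨fun T => ?_, fun m S _ => ?_⟩
    · simp only [notMem_empty, if_false, norm_zero]; simp; positivity
    · simp only [notMem_empty, if_false]; simp; positivity
  obtain ⟨n0, hn0, hmin⟩ := exists_min_image A (fun j => ‖x j‖) hne
  set t := ‖x n0‖ with ht
  have ht0 : 0 ≤ t := norm_nonneg _
  rcases ht0.eq_or_lt with h0 | hpos
  · have : (fun j => if j ∈ A then x j else 0) = x := by
      funext j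
      split_ifs with hj
      · rfl
      · have := hA n0 hn0 j hj
        rw [← ht, ← h0] at this
        exact (norm_le_zero_iff.mp this).symm
    rw [this]; exact h.mono hC (by linarith)
  have hCt : t ≤ C := by
    have := h.1 {n0}
    rw [sum_singleton] at this
    exact (abs_le_of_sq_le_sq' this hC).2
  have hCpos : 0 < C := lt_of_lt_of_le hpos hCt
  constructor
  · intro T
    calc _ ≤ ∑ j ∈ T, ‖x j‖ ^ 2 := sum_le_sum fun j _ => by
          dsimp only
          split_ifs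
          · exact le_rfl
          · simp
      _ ≤ C ^ 2 := h.1 T
      _ ≤ (7 * C) ^ 2 := by gcongr; linarith
  · intro m S hS
    have key := sum_min_le (fun k => t * rr m k / C)
      (fun k => div_pos (mul_pos hpos (rr_pos m k)) hCpos)
      (fun k => by
        rw [← mul_div_assoc]
        refine div_le_div_of_nonneg_right ?_ hC
        have := rr_succ m k
        nlinarith) m
    calc _ ≤ ∑ k ∈ range m, (‖∑ j ∈ S k, x j‖ / rr m k +
          C * min (t * rr m k / C) (t * rr m k / C)⁻¹) := by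
          refine sum_le_sum fun k hk => ?_
          have hr := rr_pos m k
          have hc := hL.card m k (mem_range.mp hk) _ (hS k (mem_range.mp hk))
          have b1 : ‖∑ j ∈ S k, (if j ∈ A then x j else 0)‖ ≤ ‖∑ j ∈ S k, x j‖ + t * rr m k ^ 2 := by
            have e : ∑ j ∈ S k, (if j ∈ A then x j else 0)
                = ∑ j ∈ S k, x j - ∑ j ∈ S k, (if j ∈ A then 0 else x j) := by
              rw [← sum_sub_distrib]
              exact sum_congr rfl fun j _ => by split_ifs <;> simp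
            rw [e]
            refine (norm_sub_le _ _).trans (add_le_add le_rfl ((norm_sum_le _ _).trans ?_))
            calc _ ≤ ∑ _j ∈ S k, t := sum_le_sum fun j _ => by
                  split_ifs with hj
                  · simpa using ht0
                  · exact hA n0 hn0 j hj
              _ = _ := by rw [sum_const, nsmul_eq_mul, hc, mul_comm]
          have b2 : ‖∑ j ∈ S k, (if j ∈ A then x j else 0)‖ ≤ C ^ 2 / t := by
            rw [le_div_iff₀ hpos]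
            refine (mul_le_mul_of_nonneg_right (norm_sum_le _ _) ht0).trans ?_
            rw [sum_mul]
            refine le_trans (sum_le_sum fun j _ => ?_) (h.1 (S k))
            split_ifs with hj
            · rw [sq]; exact mul_le_mul_of_nonneg_left (hmin j hj) (norm_nonneg _)
            · simp
          have n1 : 0 ≤ ‖∑ j ∈ S k, x j‖ / rr m k := by positivity
          rcases min_choice (t * rr m k / C) (t * rr m k / C)⁻¹ with e | e <;> rw [e]
          · refine (div_le_div_of_nonneg_right b1 hr.le).trans (le_of_eq ?_)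
            field_simp
          · refine (div_le_div_of_nonneg_right b2 hr.le).trans ?_
            have : C ^ 2 / t / rr m k = C * (t * rr m k / C)⁻¹ := by field_simp
            linarith
      _ = ∑ k ∈ range m, ‖∑ j ∈ S k, x j‖ / rr m k +
          C * ∑ k ∈ range m, min (t * rr m k / C) (t * rr m k / C)⁻¹ := by
          rw [sum_add_distrib, mul_sum]
      _ ≤ C + C * 6 := add_le_add (h.2 m S hS) (mul_le_mul_of_nonneg_left key hC)
      _ = 7 * C := by ring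

end Pool.Agent.Lib.MP_a2b538_an
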