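import Mathlib
import Pool.Agent.Lib.MP_a2b538_an.Seq

namespace Pool.Agent.Lib.MP_a2b538_an

open Finset

variable {𝕜 : Type} [RCLike 𝕜] {L : ℕ → ℕ → Set (Finset ℕ)}

theorem cross_ne (hL : Data L) {m k l : ℕ} (hk : k < m) (hl : l < m) {S S' : Finset ℕ}
    (hS : S ∈ L m k) (hS' : S' ∈ L m l) (h : k ≠ l ∨ (k = l ∧ S ≠ S')) :
    ((S ∩ S').card : ℝ) / (rr m k * rr m l) ≤ (bb m : ℝ)⁻¹ := by
  have hrk := rr_pos m k
  have hrl := rr_pos m l
  have hb := bb_pos m
  rw [div_le_iff₀ (by positivity), le_inv_mul_iff₀ hb]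
  rcases h with h | ⟨rfl, h⟩
  · rcases lt_or_gt_of_ne h with h | h
    · have a : ((S ∩ S').card : ℝ) ≤ rr m k ^ 2 := by
        rw [← hL.card m k hk S hS]; exact_mod_cast card_le_card inter_subset_left
      have b := rr_lt (m := m) h
      calc (bb m : ℝ) * (S ∩ S').card ≤ bb m * rr m k ^ 2 := by gcongr
        _ = rr m k * (rr m k * bb m) := by ring
        _ ≤ rr m k * rr m l := by gcongr
    · have a : ((S ∩ S').card : ℝ) ≤ rr m l ^ 2 := by
        rw [← hL.card m l hl S' hS']; exact_mod_cast card_le_card inter_subset_right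
      have b := rr_lt (m := m) h
      calc (bb m : ℝ) * (S ∩ S').card ≤ bb m * rr m l ^ 2 := by gcongr
        _ = (rr m l * bb m) * rr m l := by ring
        _ ≤ rr m k * rr m l := by gcongr
  · have := hL.inter m k hk S hS S' hS' h
    rw [← sq, mul_comm]; exact this

theorem cross_le (hL : Data L) {m k l : ℕ} (hk : k < m) (hl : l < m) {S S' : Finset ℕ}
    (hS : S ∈ L m k) (hS' : S' ∈ L m l) :
    ((S ∩ S').card : ℝ) / (rr m k * rr m l) ≤ (if k = l then 1 else 0) + (bb m : ℝ)⁻¹ := by
  split_ifs with h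
  · subst h
    have a : ((S ∩ S').card : ℝ) ≤ rr m k ^ 2 := by
      rw [← hL.card m k hk S hS]; exact_mod_cast card_le_card inter_subset_left
    have hrk := rr_pos m k
    have : ((S ∩ S').card : ℝ) / (rr m k * rr m k) ≤ 1 := by
      rw [div_le_one (by positivity), ← sq]; exact a
    have := inv_pos.mpr (bb_pos m)
    linarith
  · rw [zero_add]; exact cross_ne hL hk hl hS hS' (Or.inl h)

theorem exists_bad (hL : Data L) (m : ℕ) (A : Finset ℕ)
    (hA : 2 * (blk m ∩ A).card = (blk m).card) :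
    ∃ x : ℕ → ℝ, (∀ j ∉ blk m, x j = 0) ∧ Bd L (fun j => (x j : 𝕜)) √(m + 1) ∧
      ∀ C, Bd L (fun j => if j ∈ A then (x j : 𝕜) else 0) C → (m : ℝ) / 6 ≤ C := by
  classical
  have key : ∀ k, ∃ S U W : Finset ℕ, k < m → S ∈ L m k ∧ U ⊆ S ∩ A ∧ W ⊆ S \ A ∧
      U.card = W.card ∧ rr m k ^ 2 ≤ 6 * (U.card : ℝ) := by
    intro k
    by_cases hk : k < m
    · obtain ⟨S, hS, h1, h2⟩ := hL.bal m k hk A hA
      obtain ⟨U, hU, hUc⟩ := exists_subset_card_eq (min_le_left (S ∩ A).card (S \ A).card)
      obtain ⟨W, hW, hWc⟩ := exists_subset_card_eq (min_le_right (S ∩ A).card (S \ A).card)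
      refine ⟨S, U, W, fun _ => ⟨hS, hU, hW, hUc.trans hWc.symm, ?_⟩⟩
      rw [hUc]
      rcases min_choice (S ∩ A).card (S \ A).card with e | e <;> rw [e] <;> assumption
    · exact ⟨∅, ∅, ∅, fun h => absurd h hk⟩
  choose S U W hSUW using key
  have hS : ∀ k < m, S k ∈ L m k := fun k hk => (hSUW k hk).1
  have hUS : ∀ k < m, ∀ j ∈ U k, j ∈ S k ∧ j ∈ A := fun k hk j hj =>
    mem_inter.mp ((hSUW k hk).2.1 hj)
  have hWS : ∀ k < m, ∀ j ∈ W k, j ∈ S k ∧ j ∉ A := fun k hk j hj =>
    mem_sdiff.mp ((hSUW k hk).2.2.1 hj)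
  let g : ℕ → ℕ → ℝ := fun k j => (if j ∈ U k then 1 else 0) - (if j ∈ W k then 1 else 0)
  have hg : ∀ k < m, ∀ j, |g k j| ≤ if j ∈ S k then 1 else 0 := by
    intro k hk j
    simp only [g]
    by_cases h1 : j ∈ U k <;> by_cases h2 : j ∈ W k
    · simp [h1, h2]; split_ifs <;> norm_num
    · simp [h1, h2, (hUS k hk j h1).1]
    · simp [h1, h2, (hWS k hk j h2).1]
    · simp [h1, h2]; split_ifs <;> norm_num
  have hg0 : ∀ k < m, ∑ j ∈ S k, g k j = 0 := by
    intro k hk
    simp only [g, sum_sub_distrib, sum_ite_mem, sum_const, nsmul_eq_mul, mul_one]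
    rw [inter_eq_right.mpr (fun j hj => (hUS k hk j hj).1),
      inter_eq_right.mpr (fun j hj => (hWS k hk j hj).1), (hSUW k hk).2.2.2.1, sub_self]
  let x : ℕ → ℝ := fun j => ∑ k ∈ range m, g k j / rr m k
  have hx0 : ∀ j ∉ blk m, x j = 0 := by
    intro j hj
    refine sum_eq_zero fun k hk => ?_
    have hk' := mem_range.mp hk
    have h1 := hg k hk' j
    rw [if_neg (fun h => hj (hL.sub m k hk' _ (hS k hk') h))] at h1
    rw [abs_nonpos_iff.mp h1, zero_div]
  have hb := bb_pos m
  have hmb : (m : ℝ) * (m * (bb m : ℝ)⁻¹) ≤ 1 := by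
    rw [← mul_assoc, ← div_eq_mul_inv, div_le_one hb, ← sq]; exact sq_le_bb m
  refine ⟨x, hx0, ⟨fun T => ?_, fun m' S' hS' => ?_⟩, fun C hC => ?_⟩
  · rw [Real.sq_sqrt (by positivity)]
    have a1 : ∀ j, ‖(x j : 𝕜)‖ ^ 2 ≤ ∑ k ∈ range m, ∑ l ∈ range m,
        (if j ∈ S k ∩ S l then 1 else 0) / (rr m k * rr m l) := by
      intro j
      rw [RCLike.norm_ofReal]
      have b1 : |x j| ≤ ∑ k ∈ range m, (if j ∈ S k then 1 else 0) / rr m k := by
        refine (abs_sum_le_sum_abs _ _).trans (sum_le_sum fun k hk => ?_)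
        rw [abs_div, abs_of_pos (rr_pos m k)]
        exact div_le_div_of_nonneg_right (hg k (mem_range.mp hk) j) (rr_pos m k).le
      calc |x j| ^ 2 ≤ (∑ k ∈ range m, (if j ∈ S k then (1 : ℝ) else 0) / rr m k) ^ 2 := by gcongr
        _ = _ := by
          rw [sq, sum_mul_sum]
          refine sum_congr rfl fun k _ => sum_congr rfl fun l _ => ?_
          rw [div_mul_div_comm]
          congr 1
          by_cases h1 : j ∈ S k <;> by_cases h2 : j ∈ S l <;> simp [h1, h2]
    calc _ ≤ ∑ j ∈ T, ∑ k ∈ range m, ∑ l ∈ range m,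
          (if j ∈ S k ∩ S l then (1 : ℝ) else 0) / (rr m k * rr m l) := sum_le_sum fun j _ => a1 j
      _ = ∑ k ∈ range m, ∑ l ∈ range m, ∑ j ∈ T,
          (if j ∈ S k ∩ S l then (1 : ℝ) else 0) / (rr m k * rr m l) := by
          rw [sum_comm]; exact sum_congr rfl fun k _ => sum_comm
      _ ≤ ∑ k ∈ range m, ∑ l ∈ range m, ((if k = l then (1 : ℝ) else 0) + (bb m : ℝ)⁻¹) := by
          refine sum_le_sum fun k hk => sum_le_sum fun l hl => ?_
          refine le_trans ?_ (cross_le hL (mem_range.mp hk) (mem_range.mp hl)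
            (hS k (mem_range.mp hk)) (hS l (mem_range.mp hl)))
          rw [← sum_div]
          refine div_le_div_of_nonneg_right ?_ (mul_pos (rr_pos m k) (rr_pos m l)).le
          rw [sum_ite_mem, sum_const, nsmul_eq_mul, mul_one]
          exact_mod_cast card_le_card inter_subset_right
      _ = ∑ k ∈ range m, (1 + m * (bb m : ℝ)⁻¹) := by
          refine sum_congr rfl fun k hk => ?_
          rw [sum_add_distrib, sum_ite_eq, if_pos hk, sum_const, card_range, nsmul_eq_mul]
      _ = m + m * (m * (bb m : ℝ)⁻¹) := by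
          rw [sum_const, card_range, nsmul_eq_mul]; ring
      _ ≤ m + 1 := by linarith
  · have h1 : (1 : ℝ) ≤ √(m + 1) := Real.one_le_sqrt.mpr (by
      have : (0 : ℝ) ≤ m := Nat.cast_nonneg m
      linarith)
    refine le_trans ?_ h1
    by_cases hm : m' = m
    · subst hm
      calc _ ≤ ∑ _k ∈ range m', ∑ _l ∈ range m', (bb m' : ℝ)⁻¹ := by
            refine sum_le_sum fun k hk => ?_
            have hk' := mem_range.mp hk
            rw [← RCLike.ofReal_sum, RCLike.norm_ofReal]
            simp only [x]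
            rw [sum_comm]
            refine (div_le_div_of_nonneg_right (abs_sum_le_sum_abs _ _) (rr_pos _ _).le).trans ?_
            rw [sum_div]
            refine sum_le_sum fun l hl => ?_
            have hl' := mem_range.mp hl
            rw [← sum_div, abs_div, abs_of_pos (rr_pos m' l), div_div, mul_comm (rr m' l)]
            by_cases hc : k ≠ l ∨ (k = l ∧ S' k ≠ S l)
            · refine le_trans ?_ (cross_ne hL hk' hl' (hS' k hk') (hS l hl') hc)
              refine div_le_div_of_nonneg_right ?_ (mul_pos (rr_pos _ k) (rr_pos _ l)).le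
              refine (abs_sum_le_sum_abs _ _).trans ((sum_le_sum fun j _ => hg l hl' j).trans ?_)
              rw [sum_ite_mem, sum_const, nsmul_eq_mul, mul_one]
            · push Not at hc
              rw [hc.2 hc.1, hg0 l hl', abs_zero, zero_div]
              positivity
        _ = m' * (m' * (bb m' : ℝ)⁻¹) := by simp
        _ ≤ 1 := hmb
    · refine le_trans (le_of_eq (sum_eq_zero fun k hk => ?_)) zero_le_one
      have hk' := mem_range.mp hk
      rw [sum_eq_zero, norm_zero, zero_div]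
      intro j hj
      have := hx0 j (fun h => hm (blk_disj (hL.sub m' k hk' _ (hS' k hk') hj) h))
      simp [this]
  · refine le_trans ?_ (hC.2 m S hS)
    have hxA : ∀ j ∈ A, x j = ∑ k ∈ range m, (if j ∈ U k then (1 : ℝ) else 0) / rr m k := by
      intro j hj
      refine sum_congr rfl fun k hk => ?_
      simp only [g]
      rw [if_neg (fun h => (hWS k (mem_range.mp hk) j h).2 hj), sub_zero]
    have hlow : ∀ k < m, ∀ j, (if j ∈ U k then (1 : ℝ) else 0) / rr m k ≤
        if j ∈ A then x j else 0 := by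
      intro k hk j
      by_cases hj : j ∈ A
      · rw [if_pos hj, hxA j hj]
        exact single_le_sum (f := fun k => (if j ∈ U k then (1 : ℝ) else 0) / rr m k)
          (fun l _ => div_nonneg (by split_ifs <;> norm_num) (rr_pos m l).le) (mem_range.mpr hk)
      · rw [if_neg hj, if_neg (fun h => hj (hUS k hk j h).2), zero_div]
    calc (m : ℝ) / 6 = ∑ _k ∈ range m, (1 : ℝ) / 6 := by
          rw [sum_const, card_range, nsmul_eq_mul]; ring
      _ ≤ _ := by
          refine sum_le_sum fun k hk => ?_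
          have hk' := mem_range.mp hk
          have e : ∑ j ∈ S k, (if j ∈ A then (x j : 𝕜) else 0)
              = ((∑ j ∈ S k, (if j ∈ A then x j else 0) : ℝ) : 𝕜) := by
            rw [RCLike.ofReal_sum]
            exact sum_congr rfl fun j _ => by split_ifs <;> simp
          rw [e, RCLike.norm_ofReal]
          have hr := rr_pos m k
          have c1 : (U k).card / rr m k ≤ ∑ j ∈ S k, (if j ∈ A then x j else 0) := by
            refine le_trans (le_of_eq ?_) (sum_le_sum fun j _ => hlow k hk' j)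
            rw [← sum_div, sum_ite_mem, sum_const, nsmul_eq_mul, mul_one,
              inter_eq_right.mpr (fun j hj => (hUS k hk' j hj).1)]
          have c2 := (hSUW k hk').2.2.2.2
          refine le_trans ?_ (div_le_div_of_nonneg_right (c1.trans (le_abs_self _)) hr.le)
          rw [div_div, div_le_div_iff₀ (by norm_num) (by positivity)]
          nlinarith

end Pool.Agent.Lib.MP_a2b538_an
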