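import Mathlib
import Pool.Agent.Lib.MP_a2b538_an.Space
import Pool.Agent.Lib.MP_a2b538_an.Bad

namespace Pool.Agent.Lib.MP_a2b538_an

open Finset Filter Topology

variable {𝕜 : Type} [RCLike 𝕜] {L : ℕ → ℕ → Set (Finset ℕ)}
variable {X : Type} [NormedAddCommGroup X] [NormedSpace 𝕜 X]

structure Model (L : ℕ → ℕ → Set (Finset ℕ)) (e : ℕ → X) (f : ℕ → X →L[𝕜] 𝕜) : Prop where
  dense : Dense (Submodule.span 𝕜 (Set.range e) : Set X)
  bi : ∀ n k, f n (e k) = if n = k then 1 else 0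
  bd : ∀ y : X, Bd L (fun j => f j y) ‖y‖
  le : ∀ (y : X) (C : ℝ), 0 ≤ C → Bd L (fun j => f j y) C → ‖y‖ ≤ C

theorem bd_single (hL : Data L) (j : ℕ) : Bd L (Pi.single j (1 : 𝕜) : ℕ → 𝕜) 6 := by
  have := bd_flat (𝕜 := 𝕜) hL (x := Pi.single j 1) (D := {j}) (t := 1) zero_le_one
    (fun i hi => by rw [mem_singleton.mp hi]; simp)
    (fun i hi => by rw [Pi.single_eq_of_ne (by simpa using hi)])
  simpa using this

theorem exists_model (𝕜 : Type) [RCLike 𝕜] (hL : Data L) :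
    ∃ (X : Type) (_ : NormedAddCommGroup X) (_ : NormedSpace 𝕜 X) (_ : CompleteSpace X)
      (e : ℕ → X) (f : ℕ → X →L[𝕜] 𝕜), Model L e f := by
  obtain ⟨X, i1, i2, i3, e, f, h1, h2, h3, h4⟩ := exists_space (Phi 𝕜 L) 6 proj_mem_Phi
    (fun φ hφ j => phi_of_bd (by norm_num) (bd_single hL j) φ hφ)
  exact ⟨X, i1, i2, i3, e, f, h1, h2, fun y => bd_of_phi (norm_nonneg _) (h3 y),
    fun y C hC h => h4 y C hC (phi_of_bd hC h)⟩

variable {e : ℕ → X} {f : ℕ → X →L[𝕜] 𝕜}

theorem Model.coord (h : Model L e f) (A : Finset ℕ) (a : ℕ → 𝕜) (j : ℕ) :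
    f j (∑ n ∈ A, a n • e n) = if j ∈ A then a j else 0 := by
  simp only [map_sum, map_smul, h.bi, smul_eq_mul, mul_ite, mul_one, mul_zero, sum_ite_eq]

theorem Model.ext (h : Model L e f) {y z : X} (hyz : ∀ j, f j y = f j z) : y = z := by
  have : ‖y - z‖ ≤ 0 := h.le _ 0 le_rfl (by
    simp only [map_sub, hyz, sub_self]
    exact ⟨fun T => by simp, fun m S _ => by simp⟩)
  exact sub_eq_zero.mp (norm_le_zero_iff.mp this)

theorem Model.coord_le (h : Model L e f) (y : X) (j : ℕ) : ‖f j y‖ ≤ ‖y‖ := by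
  have := (h.bd y).1 {j}
  rw [sum_singleton] at this
  exact (abs_le_of_sq_le_sq' this (norm_nonneg _)).2

theorem Model.norm_e (hL : Data L) (h : Model L e f) (j : ℕ) : 1 ≤ ‖e j‖ ∧ ‖e j‖ ≤ 6 := by
  constructor
  · have := h.coord_le (e j) j
    simpa [h.bi] using this
  · apply h.le _ _ (by norm_num)
    have : (fun i => f i (e j)) = Pi.single j 1 := by
      funext i; rw [h.bi, Pi.single_apply]
    rw [this]; exact bd_single hL j

theorem Model.greedy (hL : Data L) (h : Model L e f) (y : X) (A : Finset ℕ)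
    (hA : ∀ n ∈ A, ∀ k ∉ A, ‖f k y‖ ≤ ‖f n y‖) : ‖y - ∑ n ∈ A, f n y • e n‖ ≤ 8 * ‖y‖ := by
  have h1 : ‖∑ n ∈ A, f n y • e n‖ ≤ 7 * ‖y‖ := by
    apply h.le _ _ (by positivity)
    simp only [h.coord]
    exact bd_greedy hL (norm_nonneg _) (h.bd y) A hA
  have := norm_sub_le y (∑ n ∈ A, f n y • e n)
  linarith

theorem Model.flat (hL : Data L) (h : Model L e f) (D : Finset ℕ) (a : ℕ → 𝕜) {t : ℝ}
    (ht : 0 ≤ t) (ha : ∀ j ∈ D, ‖a j‖ ≤ t) : ‖∑ n ∈ D, a n • e n‖ ≤ 6 * t * √(D.card) := by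
  apply h.le _ _ (by positivity)
  simp only [h.coord]
  exact bd_flat hL ht (fun j hj => by rw [if_pos hj]; exact ha j hj) (fun j hj => if_neg hj)

theorem Model.almost (hL : Data L) (h : Model L e f) (x : X) (A B : Finset ℕ)
    (hA : ∀ n ∈ A, ∀ k ∉ A, ‖f k x‖ ≤ ‖f n x‖) (hB : B.card ≤ A.card) :
    ‖x - ∑ n ∈ A, f n x • e n‖ ≤ 14 * ‖x - ∑ n ∈ B, f n x • e n‖ := by
  set y := x - ∑ n ∈ B, f n x • e n with hy
  have hc : ∀ j, f j y = if j ∈ B then 0 else f j x := by
    intro j; rw [hy, map_sub, h.coord]; split_ifs <;> simp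
  have e1 : x - ∑ n ∈ A, f n x • e n
      = (y - ∑ n ∈ A \ B, f n y • e n) + ∑ n ∈ B \ A, f n x • e n := by
    apply h.ext
    intro j
    simp only [map_sub, map_add, h.coord, hc, Finset.mem_sdiff]
    by_cases h1 : j ∈ A <;> by_cases h2 : j ∈ B <;> simp [h1, h2]
  have e2 := h.greedy hL y (A \ B) (by
    intro n hn k hk
    rw [Finset.mem_sdiff] at hn hk
    rw [hc n, if_neg hn.2, hc k]
    split_ifs with hkB
    · simp
    · exact hA n hn.1 k (fun hkA => hk ⟨hkA, hkB⟩))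
  have hcard : (B \ A).card ≤ (A \ B).card := by
    have a1 := card_sdiff_add_card_inter A B
    have a2 := card_sdiff_add_card_inter B A
    rw [inter_comm] at a2
    omega
  have e3 : ‖∑ n ∈ B \ A, f n x • e n‖ ≤ 6 * ‖y‖ := by
    rcases (A \ B).eq_empty_or_nonempty with h0 | hne
    · rw [h0, card_empty, Nat.le_zero, card_eq_zero] at hcard
      rw [hcard]; simp
    obtain ⟨n0, hn0, hmin⟩ := exists_min_image (A \ B) (fun j => ‖f j x‖) hne
    have b1 := h.flat hL (B \ A) (fun n => f n x) (norm_nonneg (f n0 x))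
      (fun j hj => hA n0 (Finset.mem_sdiff.mp hn0).1 j (Finset.mem_sdiff.mp hj).2)
    have b2 : ‖f n0 x‖ ^ 2 * ((A \ B).card : ℝ) ≤ ‖y‖ ^ 2 := by
      refine le_trans ?_ ((h.bd y).1 (A \ B))
      rw [mul_comm, ← nsmul_eq_mul, ← sum_const]
      refine sum_le_sum fun j hj => ?_
      dsimp only
      rw [hc j, if_neg (Finset.mem_sdiff.mp hj).2]
      exact pow_le_pow_left₀ (norm_nonneg _) (hmin j hj) 2
    have b3 : ‖f n0 x‖ * √((B \ A).card) ≤ ‖y‖ := by
      apply (abs_le_of_sq_le_sq' _ (norm_nonneg _)).2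
      rw [mul_pow, Real.sq_sqrt (Nat.cast_nonneg _)]
      refine le_trans ?_ b2
      have : ((B \ A).card : ℝ) ≤ (A \ B).card := by exact_mod_cast hcard
      gcongr
    linarith
  rw [e1]
  refine (norm_add_le _ _).trans ?_
  linarith

theorem Model.finite_large (h : Model L e f) (x : X) {δ : ℝ} (hδ : 0 < δ) :
    {k | δ ≤ ‖f k x‖}.Finite := by
  have h1 : Summable (fun j => ‖f j x‖ ^ 2) :=
    summable_of_sum_le (fun j => by positivity) (h.bd x).1
  have h2 := h1.tendsto_cofinite_zero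
  have h3 := h2.eventually (gt_mem_nhds (show (0 : ℝ) < δ ^ 2 by positivity))
  rw [eventually_cofinite] at h3
  refine h3.subset fun k hk => ?_
  simp only [Set.mem_ofPred_eq, not_lt] at hk ⊢
  gcongr

theorem Model.conv (hL : Data L) (h : Model L e f) (x : X) (A : ℕ → Finset ℕ)
    (hA : ∀ N, ∀ n ∈ A N, ∀ k ∉ A N, ‖f k x‖ ≤ ‖f n x‖)
    (hex : ∀ j, f j x ≠ 0 → ∀ᶠ N in atTop, j ∈ A N) :
    Tendsto (fun N => ∑ n ∈ A N, f n x • e n) atTop (𝓝 x) := by
  classical
  rw [Metric.tendsto_atTop']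
  intro ε hε
  obtain ⟨y, hy, hxy⟩ := Metric.dense_iff.mp h.dense x (ε / 32) (by positivity)
  obtain ⟨c, rfl⟩ := Finsupp.mem_span_range_iff_exists_finsupp.mp hxy
  set B := c.support with hB
  set δ : ℝ := ε / (32 * 12 * (√(B.card) + 1)) with hδ
  have hδ0 : 0 < δ := by positivity
  set z := x - ∑ n ∈ B, c n • e n with hz
  have hzn : ‖z‖ < ε / 32 := by
    rw [Metric.mem_ball, dist_comm, dist_eq_norm] at hy
    exact hy
  let η : ℕ → 𝕜 := fun j => if δ ≤ ‖f j z‖ then 0 else (δ : 𝕜) - f j z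
  have hη : ∀ j, ‖η j‖ ≤ 2 * δ := by
    intro j
    simp only [η]
    split_ifs with h1
    · simp; positivity
    · refine (norm_sub_le _ _).trans ?_
      rw [RCLike.norm_ofReal, abs_of_pos hδ0]
      linarith [not_le.mp h1]
  have hη2 : ∀ j, δ ≤ ‖f j z + η j‖ := by
    intro j
    simp only [η]
    split_ifs with h1
    · simpa using h1
    · rw [add_sub_cancel, RCLike.norm_ofReal, abs_of_pos hδ0]
  set z' := z + ∑ n ∈ B, η n • e n with hz'
  have hz'n : ‖z'‖ < ε / 8 := by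
    have a1 := h.flat hL B η (by positivity : 0 ≤ 2 * δ) (fun j _ => hη j)
    have a2 : 6 * (2 * δ) * √(B.card) ≤ ε / 32 := by
      have : 6 * (2 * δ) * (√(B.card) + 1) = ε / 32 := by rw [hδ]; field_simp; ring
      nlinarith
    have a3 := norm_add_le z (∑ n ∈ B, η n • e n)
    linarith
  have hc1 : ∀ j ∈ B, f j z' = f j z + η j := fun j hj => by
    rw [hz', map_add, h.coord, if_pos hj]
  have hc2 : ∀ j ∉ B, f j z' = f j x := fun j hj => by
    rw [hz', map_add, h.coord, if_neg hj, hz, map_sub, h.coord, if_neg hj]; simp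
  have ev1 : ∀ᶠ N in atTop, ∀ j ∈ B, f j x ≠ 0 → j ∈ A N := by
    rw [eventually_all_finset]
    intro j _
    by_cases hj : f j x = 0
    · exact Eventually.of_forall fun N h => absurd hj h
    · exact (hex j hj).mono fun N hN _ => hN
  have ev2 : ∀ᶠ N in atTop, ∀ j ∈ {k | δ ≤ ‖f k x‖}, j ∈ A N := by
    rw [eventually_all_finite (h.finite_large x hδ0)]
    intro j hj
    apply hex
    intro h0
    simp only [Set.mem_ofPred_eq, h0, norm_zero] at hj
    linarith
  obtain ⟨N0, hN0⟩ := eventually_atTop.mp (ev1.and ev2)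
  refine ⟨N0, fun N hN => ?_⟩
  obtain ⟨g1, g2⟩ := hN0 N hN.le
  have e1 : x - ∑ n ∈ A N, f n x • e n = z' - ∑ n ∈ A N ∪ B, f n z' • e n := by
    apply h.ext
    intro j
    simp only [map_sub, h.coord, mem_union]
    by_cases h1 : j ∈ A N
    · simp [h1]
    · by_cases h2 : j ∈ B
      · have : f j x = 0 := by
          by_contra h3; exact h1 (g1 j h2 h3)
        simp [h1, h2, this]
      · simp [h1, h2, hc2 j h2]
  have e2 := h.greedy hL z' (A N ∪ B) (by
    intro n hn k hk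
    rw [mem_union] at hn hk
    push Not at hk
    rw [hc2 k hk.2]
    by_cases h2 : n ∈ B
    · rw [hc1 n h2]
      refine le_trans ?_ (hη2 n)
      by_contra h3
      exact hk.1 (g2 k (not_le.mp h3).le)
    · rw [hc2 n h2]
      exact hA N n (hn.resolve_right h2) k hk.1)
  rw [dist_comm, dist_eq_norm, e1]
  linarith

theorem Model.quasi (hL : Data L) (h : Model L e f) (x : X) (D : Set ℕ) (ρ : ℕ → ℕ)
    (hD : IsLowerSet D) (hinj : Set.InjOn ρ D) (him : ρ '' D = {n | f n x ≠ 0})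
    (hmono : ∀ j ∈ D, ∀ k ∈ D, j < k → ‖f (ρ k) x‖ ≤ ‖f (ρ j) x‖) :
    Tendsto (fun N => ∑ j ∈ range N, D.indicator (fun j => f (ρ j) x • e (ρ j)) j) atTop (𝓝 x) := by
  classical
  have := h.conv hL x (fun N => ((range N).filter (· ∈ D)).image ρ) ?_ ?_
  · refine this.congr fun N => ?_
    rw [sum_image (fun a ha b hb hab => hinj (mem_filter.mp ha).2 (mem_filter.mp hb).2 hab),
      sum_filter]
    exact sum_congr rfl fun j _ => by rw [Set.indicator_apply]
  · intro N n hn k hk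
    obtain ⟨j, hj, rfl⟩ := mem_image.mp hn
    rw [mem_filter, mem_range] at hj
    by_cases h0 : f k x = 0
    · rw [h0]; simp
    · have : k ∈ ρ '' D := by rw [him]; exact h0
      obtain ⟨i, hi, rfl⟩ := this
      apply hmono j hj.2 i hi
      by_contra hij
      exact hk (mem_image.mpr ⟨i, mem_filter.mpr ⟨mem_range.mpr (by omega), hi⟩, rfl⟩)
  · intro j hj
    have : j ∈ ρ '' D := by rw [him]; exact hj
    obtain ⟨i, hi, rfl⟩ := this
    filter_upwards [eventually_gt_atTop i] with N hN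
    exact mem_image.mpr ⟨i, mem_filter.mpr ⟨mem_range.mpr hN, hi⟩, rfl⟩

theorem Model.not_schauder [CompleteSpace X] (hL : Data L) (h : Model L e f) (σ : ℕ ≃ ℕ) :
    ¬ ∀ x : X, ∃ a : ℕ → 𝕜, Tendsto (fun N => ∑ n ∈ range N, a n • e (σ n)) atTop (𝓝 x) := by
  classical
  intro hS
  let P : ℕ → X →L[𝕜] X := fun N => ∑ n ∈ range N, (f (σ n)).smulRight (e (σ n))
  have hP : ∀ N x, P N x = ∑ n ∈ range N, f (σ n) x • e (σ n) := fun N x => by simp [P]
  have hconv : ∀ x, Tendsto (fun N => P N x) atTop (𝓝 x) := by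
    intro x
    obtain ⟨a, ha⟩ := hS x
    have : ∀ n, a n = f (σ n) x := by
      intro n
      have h1 := ((f (σ n)).continuous.tendsto x).comp ha
      have h2 : ∀ᶠ N in atTop, (f (σ n) ∘ fun N => ∑ k ∈ range N, a k • e (σ k)) N = a n := by
        filter_upwards [eventually_gt_atTop n] with N hN
        simp [h.bi, hN]
      exact tendsto_nhds_unique (tendsto_const_nhds.congr' (h2.mono fun N hN => hN.symm)) h1
    simp only [hP, ← this]
    exact ha
  obtain ⟨C, hC⟩ := banach_steinhaus (g := P) (fun x => by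
    obtain ⟨C, hC⟩ := (hconv x).norm.bddAbove_range
    exact ⟨C, fun N => hC ⟨N, rfl⟩⟩)
  have hC0 : 0 ≤ C := (norm_nonneg _).trans (hC 0)
  have key : ∀ m : ℕ, 1 ≤ m → (m : ℝ) / 6 ≤ C * √(m + 1) := by
    intro m hm
    have hev : (blk m).card = 2 * ((m ^ 2 + 1) * bb m ^ (4 * m - 1)) := by
      rw [blk_card]
      have : 4 * m = (4 * m - 1) + 1 := by omega
      conv_lhs => rw [this, pow_succ]
      unfold bb; ring
    obtain ⟨N, hN⟩ := half_time σ (blk m) _ hev
    let A : Finset ℕ := (range N).map σ.toEmbedding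
    have hA : ∀ j, j ∈ A ↔ σ.symm j < N := by
      intro j; simp [A]
    have hA2 : 2 * (blk m ∩ A).card = (blk m).card := by
      rw [hev, ← hN]
      congr 2
      ext j; simp [hA]
    obtain ⟨x, hx0, hx1, hx2⟩ := exists_bad (𝕜 := 𝕜) hL m A hA2
    set y : X := ∑ n ∈ blk m, (x n : 𝕜) • e n with hy
    have hc : ∀ j, f j y = x j := by
      intro j
      rw [hy, h.coord]
      split_ifs with hj
      · rfl
      · rw [hx0 j hj]; simp
    have hn : ‖y‖ ≤ √(m + 1) := h.le _ _ (Real.sqrt_nonneg _) (by simp only [hc]; exact hx1)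
    have e1 : P N y = ∑ n ∈ A, f n y • e n := by rw [hP, sum_map]; rfl
    have h3 := h.bd (P N y)
    rw [e1] at h3
    simp only [h.coord, hc] at h3
    have h4 := hx2 _ h3
    simp only [← hc, ← e1] at h4
    refine h4.trans (((P N).le_opNorm y).trans ?_)
    exact mul_le_mul (hC N) hn (norm_nonneg _) hC0
  obtain ⟨m, hm⟩ := exists_nat_gt (72 * C ^ 2 + 1)
  have hm1 : (1 : ℝ) ≤ m := by nlinarith [sq_nonneg C]
  have h1 := key m (by exact_mod_cast hm1)
  have h2 : ((m : ℝ) / 6) ^ 2 ≤ (C * √(m + 1)) ^ 2 := by gcongr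
  rw [mul_pow, Real.sq_sqrt (by positivity)] at h2
  nlinarith [sq_nonneg C]

end Pool.Agent.Lib.MP_a2b538_an
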