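import Mathlib
import Pool.Agent.Lib.MP_a2b538_an.Main

namespace Pool.Agent.Results.MP_a2b538_an.BanachExample

open Filter Topology

variable {𝕜 : Type} [RCLike 𝕜] {X : Type} [NormedAddCommGroup X] [NormedSpace 𝕜 X]

/-- fundamental, biorthogonal, semi-normalized, M-bounded -/
def IsBasis (e : ℕ → X) (f : ℕ → X →L[𝕜] 𝕜) : Prop :=
  Dense (Submodule.span 𝕜 (Set.range e) : Set X) ∧
    (∀ n k, f n (e k) = if n = k then 1 else 0) ∧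
    (∃ c C : ℝ, 0 < c ∧ ∀ n, c ≤ ‖e n‖ ∧ ‖e n‖ ≤ C) ∧
    (∃ M : ℝ, ∀ n, ‖e n‖ * ‖f n‖ ≤ M)

/-- every greedy series converges to the vector -/
def IsQuasiGreedy (e : ℕ → X) (f : ℕ → X →L[𝕜] 𝕜) : Prop :=
  ∀ (x : X) (D : Set ℕ) (ρ : ℕ → ℕ), IsLowerSet D → Set.InjOn ρ D → ρ '' D = {n | f n x ≠ 0} →
    (∀ j ∈ D, ∀ k ∈ D, j < k → ‖f (ρ k) x‖ ≤ ‖f (ρ j) x‖) →
    Tendsto (fun N => ∑ j ∈ Finset.range N, D.indicator (fun j => f (ρ j) x • e (ρ j)) j)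
      atTop (𝓝 x)

/-- greedy sums are, up to a constant, best projections -/
def IsAlmostGreedy (e : ℕ → X) (f : ℕ → X →L[𝕜] 𝕜) : Prop :=
  ∃ C : ℝ, ∀ (x : X) (A B : Finset ℕ), (∀ n ∈ A, ∀ k ∉ A, ‖f k x‖ ≤ ‖f n x‖) → B.card ≤ A.card →
    ‖x - ∑ n ∈ A, f n x • e n‖ ≤ C * ‖x - ∑ n ∈ B, f n x • e n‖

/-- every vector has a unique norm-convergent expansion -/
def IsSchauderBasis (𝕜 : Type) [RCLike 𝕜] [NormedSpace 𝕜 X] (y : ℕ → X) : Prop :=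
  ∀ x : X, ∃! a : ℕ → 𝕜, Tendsto (fun N => ∑ n ∈ Finset.range N, a n • y n) atTop (𝓝 x)

theorem result (𝕜 : Type) [RCLike 𝕜] :
    ∃ (X : Type) (_ : NormedAddCommGroup X) (_ : NormedSpace 𝕜 X) (_ : CompleteSpace X)
      (e : ℕ → X) (f : ℕ → X →L[𝕜] 𝕜),
      IsBasis e f ∧ IsQuasiGreedy e f ∧ IsAlmostGreedy e f ∧
        ∀ π : ℕ ≃ ℕ, ¬ IsSchauderBasis 𝕜 (fun n => e (π n)) := by
  obtain ⟨L, hL⟩ := Lib.MP_a2b538_an.exists_data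
  obtain ⟨X, i1, i2, i3, e, f, h⟩ := Lib.MP_a2b538_an.exists_model 𝕜 hL
  refine ⟨X, i1, i2, i3, e, f, ⟨h.dense, h.bi, ⟨1, 6, one_pos, h.norm_e hL⟩, 6, fun n => ?_⟩,
    fun x D ρ h1 h2 h3 h4 => h.quasi hL x D ρ h1 h2 h3 h4, ⟨14, h.almost hL⟩,
    fun π hπ => h.not_schauder hL π fun x => (hπ x).exists⟩
  have h1 : ‖f n‖ ≤ 1 := (f n).opNorm_le_bound zero_le_one (fun x => by
    rw [one_mul]; exact h.coord_le x n)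
  calc ‖e n‖ * ‖f n‖ ≤ 6 * 1 := mul_le_mul (h.norm_e hL n).2 h1 (norm_nonneg _) (by norm_num)
    _ = 6 := by norm_num

end Pool.Agent.Results.MP_a2b538_an.BanachExample
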